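import Pool.Agent.MP_7b45f6_mp.H97.MainPT
import Pool.Agent.MP_7b45f6_mp.H97.EXT

set_option autoImplicit false

open Filter Pool.Agent.MP_7b45f6_mp.H32 Pool.Agent.MP_7b45f6_mp.H97

/-- Kesten's pattern theorem for interacting polygons in the half-space, for all `α` and `β`. -/
theorem Pool.Agent.Results.MP_7b45f6_mp.PatternTheorem.result (α β : ℝ) (r : ℕ) (γ : List P)
    (h : K.Pattern r γ) : ∃ ε : ℝ, 0 < ε ∧ ∃ c : ℝ, 0 < c ∧ ∀ᶠ m : ℕ in atTop,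
      K.Zle r γ ε (2 * m) α β ≤ Real.exp (-c * (2 * m : ℕ)) * Zp (2 * m) α β :=
  ptK_of pt α β r γ h
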