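import Pool.Agent.MP_7b45f6_mp.H11.Main

set_option autoImplicit false

open Filter Topology Pool.Agent.MP_7b45f6_mp.H11

/-- Collapse transition for interacting prudent polygons in the half-space that cross each plane
x = c + 1/2 at most `m` times. -/
theorem Pool.Agent.Results.MP_7b45f6_mp.PrudentCollapse.result (m : ℕ) (hm : 2 ≤ m) (α : ℝ) :
    ∃ F : ℝ → ℝ, (∀ β : ℝ, limsup (fun j : ℕ => (Fn m α β j : EReal)) atTop = (F β : EReal)) ∧
      ∃ βc : ℝ, (∀ β : ℝ, β < βc → 2 * β < F β) ∧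
        (∀ β : ℝ, βc ≤ β → Tendsto (Fn m α β) atTop (𝓝 (2 * β))) ∧ ¬ AnalyticAt ℝ F βc :=
  transition hm α
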