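import Pool.Agent.MP_7b45f6_mp.H97.MainSC

set_option autoImplicit false

open Filter Topology Pool.Agent.MP_7b45f6_mp.H32 Pool.Agent.MP_7b45f6_mp.H97

/-- The limiting free energy of interacting polygons is strictly convex in `β`, with a positive
lower second symmetric derivative at every point. -/
theorem Pool.Agent.Results.MP_7b45f6_mp.StrictConvexity.result (α : ℝ) :
    ∃ F : ℝ → ℝ,
      (∀ β : ℝ, Tendsto (fun m : ℕ => Real.log (Zp (2 * m) α β) / (2 * m : ℕ)) atTop (𝓝 (F β))) ∧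
      StrictConvexOn ℝ Set.univ F ∧
      ∀ β : ℝ, ∃ c : ℝ, 0 < c ∧ ∀ t : ℝ, |t| ≤ 1 → c * t ^ 2 ≤ F (β + t) + F (β - t) - 2 * F β :=
  ⟨Fe α, fun β => (lim α β).1, cvx α, qnt α⟩
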