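import Pool.Agent.MP_7b45f6_mp.H32.Main

set_option autoImplicit false

open Filter Topology Pool.Agent.MP_7b45f6_mp.H32

/-- For all real `α` and `β` the limiting free energy of interacting self-avoiding walks attached
to the surface of the half-space exists and equals the limiting free energy of polygons. -/
theorem Pool.Agent.Results.MP_7b45f6_mp.WalkFreeEnergy.result (α β : ℝ) :
    ∃ F : ℝ, Tendsto (fun n : ℕ => Real.log (Zw n α β) / n) atTop (𝓝 F) ∧
      Tendsto (fun m : ℕ => Real.log (Zp (2 * m) α β) / (2 * m : ℕ)) atTop (𝓝 F) :=
  main α β
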